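import Pool.Agent.X161.MC.Exist

/-!
# MP_b0ed8d_nt: `g(35) = 3853` is non-MC
-/

set_option autoImplicit false

namespace Pool.Agent.Results.MP_b0ed8d_nt.NonMCThirtyFive

open Pool.Agent.X161.MC

/-- The lattice points enclosed by the circle with centre `c` and radius `r`. -/
def enclosed (c : ℝ × ℝ) (r : ℝ) : Set (ℤ × ℤ) :=
  {p | ((p.1 : ℝ) - c.1) ^ 2 + ((p.2 : ℝ) - c.2) ^ 2 < r ^ 2}

/-- The radii of the `n`-enclosing circles. -/
def radii (n : ℕ) : Set ℝ := {r | 0 < r ∧ ∃ c : ℝ × ℝ, (enclosed c r).encard = n}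

/-- `n` is MC: there is a largest `n`-enclosing circle. -/
def IsMC (n : ℕ) : Prop := ∃ r, IsGreatest (radii n) r

/-- The number of the lattice points `(a, b)` with `a² + b² ≤ k²`. -/
noncomputable def g (k : ℕ) : ℕ := {p : ℤ × ℤ | p.1 ^ 2 + p.2 ^ 2 ≤ (k : ℤ) ^ 2}.ncard

lemma encard_eq (c : ℝ × ℝ) (r : ℝ) : (enclosed c r).encard = cnt c.1 c.2 (r ^ 2) :=
  ((enc_finite c.1 c.2 (r ^ 2)).cast_ncard_eq).symm

lemma g_eq : g 35 = 3853 := by
  have h : {p : ℤ × ℤ | p.1 ^ 2 + p.2 ^ 2 ≤ ((35 : ℕ) : ℤ) ^ 2} =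
      enc ((0 : ℕ) / (1 : ℕ)) ((0 : ℕ) / (1 : ℕ)) ((1226 : ℕ) / ((1 : ℕ) : ℝ) ^ 2) := by
    ext p
    simp only [enc, sd, Set.mem_ofPred_eq]
    norm_num
    rw [← Int.lt_add_one_iff]
    exact_mod_cast Iff.rfl
  unfold g
  rw [h]
  exact (cnt_exact (M := 1) (X := 0) (Y := 0) (S := 1226) 36 (by norm_num) (by norm_num) (by norm_num)
    (by norm_num)).trans (by decide +kernel)

lemma cert : chk 64 5048320 36 3854 (near 32 32 1) 8 0 0 32 = true := by decide +kernel

lemma core_val : 3852 ≤ boxCount 64 5048320 36 31 32 31 32 := by decide +kernel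

lemma S_eq : (((5048320 : ℕ) : ℝ) / ((64 : ℕ) : ℝ) ^ 2) = 2465 / 2 := by norm_num

lemma lower {x y : ℝ} (hx0 : 0 ≤ x) (hx1 : x ≤ 1 / 2) (hy0 : 0 ≤ y) (hy1 : y ≤ 1 / 2)
    (hne : ¬ (x = 1 / 2 ∧ y = 1 / 2)) : 3854 ≤ cnt x y (2465 / 2) := by
  rw [← S_eq]
  rcases chk_sound (by norm_num) 8 0 0 32 (by norm_num) (by norm_num) cert x y (by push_cast; linarith)
    (by push_cast; linarith) (by push_cast; linarith) (by push_cast; linarith) with h | h
  · exact h
  obtain ⟨a, b, h, hn, h1, h2, h3, h4⟩ := h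
  obtain ⟨e1, -, e3, -⟩ := near_spec hn h1 h2 h3 h4
  norm_num at e1 e3
  have hpos : 0 < (1 / 2 - x) + (1 / 2 - y) := by
    rcases lt_or_eq_of_le hx1 with h5 | h5
    · linarith
    · rcases lt_or_eq_of_le hy1 with h6 | h6
      · linarith
      · exact absurd ⟨h5, h6⟩ hne
  have hq1 : (1 / 2 - x) ^ 2 ≤ (1 / 2 - x) := by nlinarith
  have hq2 : (1 / 2 - y) ^ 2 ≤ (1 / 2 - y) := by nlinarith
  have := near_count (M := 64) (S := 5048320) (a := 31) (a' := 32) (b := 31) (b' := 32)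
    (by norm_num) (by norm_num) (by norm_num) (x₀ := 1 / 2) (y₀ := 1 / 2) (x := x) (y := y)
    (by norm_num) (by norm_num) (by norm_num) (by norm_num) (by norm_num) (by norm_num)
    (by norm_num) (by norm_num) (by norm_num; linarith) (by norm_num; linarith)
    (by norm_num; linarith) (by norm_num; linarith) hx0 hy0 (by linarith) (by linarith) 36
    {(-34, -6), (-6, -34)}
    (by
      intro p hp
      rw [S_eq]
      simp only [Finset.mem_insert, Finset.mem_singleton] at hp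
      rcases hp with rfl | rfl <;> norm_num [sd])
    (by
      intro p hp
      rw [S_eq]
      simp only [Finset.mem_insert, Finset.mem_singleton] at hp
      rcases hp with rfl | rfl <;> simp only [sd] <;> push_cast <;> nlinarith)
  have c := core_val
  have hcard : ({(-34, -6), (-6, -34)} : Finset (ℤ × ℤ)).card = 2 := by decide
  rw [hcard] at this
  omega

lemma centre_count : cnt (1 / 2) (1 / 2) (2465 / 2) = 3852 := by
  have h := cnt_exact (M := 2) (X := 1) (Y := 1) (S := 4930) 36 (by norm_num) (by norm_num)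
    (by norm_num) (by norm_num)
  norm_num at h
  rw [h]
  decide +kernel

lemma never {x y s : ℝ} (hs : 2465 / 2 ≤ s) : cnt x y s ≠ 3853 := by
  obtain ⟨x', y', h1, h2, h3, h4, h5⟩ := exists_red x y
  rw [h5]
  by_cases hc : x' = 1 / 2 ∧ y' = 1 / 2
  · obtain ⟨rfl, rfl⟩ := hc
    rcases lt_or_eq_of_le hs with h | h
    · have := cnt_gt h {(-34, -6), (-6, -34)}
        (x := 1 / 2) (y := 1 / 2) (by
          intro p hp
          simp only [Finset.mem_insert, Finset.mem_singleton] at hp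
          rcases hp with rfl | rfl <;> norm_num [sd])
      rw [centre_count] at this
      have hcard : ({(-34, -6), (-6, -34)} : Finset (ℤ × ℤ)).card = 2 := by decide
      omega
    · rw [← h, centre_count]
      norm_num
  · have := (lower h1 h2 h3 h4 hc).trans (cnt_mono hs)
    omega

lemma exist {t : ℝ} (ht : t < 2465 / 2) : ∃ x y s : ℝ, t < s ∧ cnt x y s = 3853 := by
  refine exist_near (q := 2) (N := 4930) (X := 1) (Y := 1) (V := 69) (W := 13) (A := 4929)
    (m := 3852) (k := 1) (by norm_num) ?_ ?_ (by norm_num; exact ht)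
  · have := centre_count
    norm_num at this ⊢
    exact this
  · rw [Set.ncard_eq_one]
    refine ⟨(35, 7), ?_⟩
    ext ⟨a, b⟩
    simp only [Set.mem_ofPred_eq, Set.mem_singleton_iff, Prod.mk.injEq]
    push_cast
    constructor
    · rintro ⟨h1, h2⟩
      have h3 : (2 * a - 1 - 69) ^ 2 + (2 * b - 1 - 13) ^ 2 = 0 := by
        apply le_antisymm
        · nlinarith
        · positivity
      have h4 : (2 * a - 1 - 69) ^ 2 = 0 := by
        nlinarith [sq_nonneg (2 * a - 1 - 69), sq_nonneg (2 * b - 1 - 13)]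
      have h5 : (2 * b - 1 - 13) ^ 2 = 0 := by
        nlinarith [sq_nonneg (2 * a - 1 - 69), sq_nonneg (2 * b - 1 - 13)]
      rw [sq_eq_zero_iff] at h4 h5
      omega
    · rintro ⟨rfl, rfl⟩
      norm_num

lemma radii_lt {r : ℝ} (hr : r ∈ radii 3853) : r < √(2465 / 2) := by
  obtain ⟨h0, c, hc⟩ := hr
  rw [encard_eq] at hc
  have hc' : cnt c.1 c.2 (r ^ 2) = 3853 := by exact_mod_cast hc
  by_contra hcon
  push Not at hcon
  refine never ?_ hc'
  rwa [Real.sqrt_le_left h0.le] at hcon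

lemma exists_radii {t : ℝ} (ht : t < √(2465 / 2)) : ∃ r ∈ radii 3853, t < r := by
  have ht2 : max t 0 ^ 2 < 2465 / 2 := by
    rw [← Real.lt_sqrt (le_max_right _ _)]
    exact max_lt ht (Real.sqrt_pos.2 (by norm_num))
  obtain ⟨x, y, s, h1, h2⟩ := exist ht2
  have hs : 0 < s := lt_of_le_of_lt (sq_nonneg _) h1
  refine ⟨√s, ⟨Real.sqrt_pos.2 hs, (x, y), ?_⟩, ?_⟩
  · rw [encard_eq, Real.sq_sqrt hs.le, h2]
  · exact lt_of_le_of_lt (le_max_left t 0) (by rwa [Real.lt_sqrt (le_max_right _ _)])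

/-- `g(35) = 3853`; the supremum of the radii of the `3853`-enclosing circles is `√(2465 / 2)`, and it
is not attained.  So `g(k)` is non-MC for some `k ≥ 1` other than `1` and `10`. -/
theorem result :
    (g 35 = 3853 ∧ IsLUB (radii 3853) (√(2465 / 2)) ∧ √(2465 / 2) ∉ radii 3853) ∧
      ∃ k : ℕ, 1 ≤ k ∧ k ≠ 1 ∧ k ≠ 10 ∧ ¬ IsMC (g k) := by
  refine ⟨⟨g_eq, ⟨fun r hr => (radii_lt hr).le, fun b hb => ?_⟩, fun h => lt_irrefl _ (radii_lt h)⟩,
    35, by norm_num, by norm_num, by norm_num, ?_⟩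
  · by_contra hcon
    push Not at hcon
    obtain ⟨r, hr, hbr⟩ := exists_radii hcon
    exact absurd (hb hr) (not_le.2 hbr)
  · rw [g_eq]
    rintro ⟨r, hr, hr'⟩
    obtain ⟨r', h1, h2⟩ := exists_radii (radii_lt hr)
    exact absurd (hr' h1) (not_le.2 h2)

end Pool.Agent.Results.MP_b0ed8d_nt.NonMCThirtyFive
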